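import Pool.Agent.PGm.M02

/-! # Module DER4: telescoping -/

namespace PGa

variable {q c w : ℝ}

/-- Module DER4: the three telescoping identities -/
theorem tele_v (hq : 0 < q) (hqc : q < c) (hc : c < 1) (h0 : 0 ≤ w) (h1 : w < c) :
    dNv c w = dX q c w / Xf q c w + q * dNv c (q * w) := by
  have g2 := (c_sub_qq hq hqc hc).ne'
  have g3 : c - q ≠ 0 := by linarith
  have g4 : (1 + q) ≠ 0 := by linarith
  have hw1 : 1 - w ≠ 0 := by linarith
  have hcw : c - w ≠ 0 := by linarith
  have hqw : q * w < c := by nlinarith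
  have hqw0 : 0 ≤ q * w := by positivity
  have h3 : c - q * w ≠ 0 := by linarith
  have h4 : 1 - q * w ≠ 0 := by linarith
  have e1 : dX q c w / Xf q c w = -((1 - c) * (1 - q) * (c - q * w ^ 2)) /
      ((c - q * w) * (1 - w) * (1 - q * w) * (c - w)) := by
    unfold dX Xf
    rw [div_div_eq_mul_div]
    rw [div_eq_div_iff]
    · field_simp
    · positivity
    · positivity
  rw [e1]
  unfold dNv
  rw [div_sub_div _ _ hw1 hcw, div_sub_div _ _ h4 h3, mul_div_assoc', div_add_div _ _ (by positivity) (by positivity),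
    div_eq_div_iff (by positivity) (by positivity)]
  ring

/-- Module DER4 -/
theorem tele_f (hq : 0 < q) (hqc : q < c) (hc : c < 1) (h0 : 0 ≤ w) (h1 : w < c) :
    dNf q c w = q * dZ q c (q * w) / Zf q c (q * w) + q * dNf q c (q * w) := by
  have g1 := (one_sub_qc hq hqc hc).ne'
  have g3 : c - q ≠ 0 := by linarith
  have g4 : (1 + q) ≠ 0 := by linarith
  have g5 : (1 - c) ≠ 0 := by linarith
  have hw1 : 1 - w ≠ 0 := by linarith
  have hqw : q * w < c := by nlinarith
  have hqw0 : 0 ≤ q * w := by positivity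
  have hqqw : q * (q * w) < c := by nlinarith
  have h3 : c - q * w ≠ 0 := by linarith
  have h4 : 1 - q * w ≠ 0 := by linarith
  have h5 : c - q * (q * w) ≠ 0 := by linarith
  have h5' : c - q ^ 2 * w ≠ 0 := by
    have : q ^ 2 * w = q * (q * w) := by ring
    rw [this]; exact h5
  have e1 : q * dZ q c (q * w) / Zf q c (q * w) = -((c - q) * (1 - q) * (c - (q * w) ^ 2)) /
      ((c - q * w) * (1 - q * w) * (1 - w) * (c - q * (q * w))) := by
    rw [Zf_mul hq hqc hc]
    unfold dZ
    rw [div_div_eq_mul_div]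
    rw [div_eq_div_iff]
    · field_simp
    · positivity
    · positivity
  rw [e1]
  unfold dNf
  rw [div_sub_div _ _ h3 hw1, div_sub_div _ _ h5 h4, mul_div_assoc', div_add_div _ _ (by positivity) (by positivity),
    div_eq_div_iff (by positivity) (by positivity)]
  ring

/-- Module DER4 -/
theorem tele_e (hq : 0 < q) (hqc : q < c) (hc : c < 1) (h0 : 0 ≤ w) (h1 : w < c) :
    dNe q c w = dZ q c w + ss q c * dX q c w + q * dNe q c (q * w) := by
  have g1 := (one_sub_qc hq hqc hc).ne'
  have g2 := (c_sub_qq hq hqc hc).ne'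
  have g3 : c - q ≠ 0 := by linarith
  have g4 : (1 + q) ≠ 0 := by linarith
  have g5 : (1 - c) ≠ 0 := by linarith
  have g6 : (1 - q) ≠ 0 := by linarith
  have hw1 : 1 - w ≠ 0 := by linarith
  have hcw : c - w ≠ 0 := by linarith
  have hqw : q * w < c := by nlinarith
  have h3 : c - q * w ≠ 0 := by linarith
  set K : ℝ := (1 - q * c) * (c - q) * (1 - q) / (q * (1 - c) * (1 + q)) with hK
  have e1 : ∀ v, dNe q c v = -(K / (1 - c)) * (c / (c - v) ^ 2) := by
    intro v
    unfold dNe
    rw [hK]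
    rw [div_div, neg_div, neg_mul, div_mul_div_comm, div_div]
    congr 2
    ring
  have e2 : dZ q c w = -(K / (1 - c)) * ((1 - c) * (c - w ^ 2) / ((c - w) ^ 2 * (1 - w) ^ 2)) := by
    unfold dZ
    rw [← hK]
    field_simp
  have e3 : ss q c * dX q c w =
      -(K / (1 - c)) * ((c - q) * (c - q * w ^ 2) / ((c - q * w) ^ 2 * (1 - w) ^ 2)) := by
    rw [ss_eq hq hqc hc, hK]
    unfold dX
    field_simp
  rw [e1, e1, e2, e3]
  have e4 : c / (c - w) ^ 2 = (1 - c) * (c - w ^ 2) / ((c - w) ^ 2 * (1 - w) ^ 2) +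
      (c - q) * (c - q * w ^ 2) / ((c - q * w) ^ 2 * (1 - w) ^ 2) + q * (c / (c - q * w) ^ 2) := by
    have f1 : (1 - c) * (c - w ^ 2) / ((c - w) ^ 2 * (1 - w) ^ 2) = c / (c - w) ^ 2 - 1 / (1 - w) ^ 2 := by
      rw [div_sub_div _ _ (by positivity) (by positivity),
        div_eq_div_iff (by positivity) (by positivity)]
      ring
    have f2 : (c - q) * (c - q * w ^ 2) / ((c - q * w) ^ 2 * (1 - w) ^ 2) =
        1 / (1 - w) ^ 2 - q * c / (c - q * w) ^ 2 := by
      rw [div_sub_div _ _ (by positivity) (by positivity),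
        div_eq_div_iff (by positivity) (by positivity)]
      ring
    rw [f1, f2]
    ring
  rw [e4]
  ring

end PGa
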