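import Pool.Agent.PGm.M08

/-!
# Module XEX: existence of the weight `A`

`exists_A_uv`: the weight `A` exists on an explicit box of the parameters `u`, `v`, `K`, `D`, `S`.
`uv_box`: the explicit box for `u`, `v` in terms of `sv u v`, `ev u v`.
`exists_A_box`: both together.

Let `p = 1 + K D`, `m = A + K`, `z1 < z2` the roots of `z^2 - (m + p) z + A p`; then `z1 < m, p < z2` and
`(m - z1)(z2 - m) = (p - z1)(z2 - p) = K p`.  For `0 < z ≤ 3/2`:
`(24/25) / (1 - v z) ≤ Xz z ≤ 1 / (1 - v (z + 1/50))`.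
At `A = 5/4`: the chord of the convex function is at least `(24/25) / (1 - v m) > 17/8`; at `A = 1/2` it is less than `19/10`.
Intermediate value theorem.
-/

namespace PGa
open PGr
open scoped ENNReal

private theorem xex_zw {u v w z : ℝ} (ha : aa u v * w < 1) (h : zw u v w = z) :
    w * (1 - bb u v * w) = z * (1 - aa u v * w) := by
  have h1 : 1 - aa u v * w ≠ 0 := by intro h; linarith
  exact (div_eq_iff h1).1 h

private theorem xex_ba {u v : ℝ} (h : Reg u v) (hu : u ≤ 1 / 150) :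
    bb u v - aa u v ≤ 1 / 600 := by
  have e : bb u v - aa u v = u * (v * (1 - v)) := by unfold aa bb; ring
  have h1 : v * (1 - v) ≤ 1 / 4 := by nlinarith [sq_nonneg (v - 1 / 2)]
  have h2 : 0 ≤ v * (1 - v) := mul_nonneg h.v0.le (by linarith [h.v1])
  rw [e]
  have := mul_le_mul hu h1 h2 (by norm_num)
  linarith

private theorem xex_q {u q v : ℝ} (hu0 : 0 < u) (hu : u ≤ 1 / 150) (hq0 : 0 < q)
    (hq : q ≤ 969 / 1250) (hv0 : 0 < v) (hv : v ≤ 51 / 100) :
    u * q ≤ (1 - q) / 40 ∧ u * q * v ≤ (1 - q) / 75 := by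
  have h1 : u * q ≤ 1 / 150 * q := mul_le_mul_of_nonneg_right hu hq0.le
  have h2 : u * q ≤ (1 - q) / 40 := by linarith
  refine ⟨h2, ?_⟩
  have h3 : u * q * v ≤ (1 - q) / 40 * (51 / 100) :=
    mul_le_mul h2 hv hv0.le (by linarith)
  linarith

private theorem xex_low {q a b vz : ℝ} (hq : q < 1) (hqz : 1 - q ≤ 1 - vz)
    (ha : 1 - a ≤ (1 - q) * (41 / 40)) (hb : 1 - b ≤ (1 - q) * (76 / 75)) (hb0 : 0 < 1 - b) :
    24 / 25 * ((1 - a) * (1 - b)) ≤ (1 - q) * (1 - vz) := by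
  have h0 : 0 < 1 - q := by linarith
  have h4 : (1 - a) * (1 - b) ≤ ((1 - q) * (41 / 40)) * ((1 - q) * (76 / 75)) :=
    mul_le_mul ha hb hb0.le (by linarith)
  have h5 : 0 ≤ (1 - q) * (1 - q) := mul_nonneg h0.le h0.le
  calc 24 / 25 * ((1 - a) * (1 - b))
      ≤ 24 / 25 * (((1 - q) * (41 / 40)) * ((1 - q) * (76 / 75))) := by linarith
    _ = ((1 - q) * (1 - q)) * (24 / 25 * (41 / 40) * (76 / 75)) := by ring
    _ ≤ ((1 - q) * (1 - q)) * 1 := mul_le_mul_of_nonneg_left (by norm_num) h5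
    _ = (1 - q) * (1 - q) := mul_one _
    _ ≤ (1 - q) * (1 - vz) := mul_le_mul_of_nonneg_left hqz h0.le

private theorem xex_quad {a b z : ℝ} (hba0 : 0 ≤ b - a) (hba : b - a ≤ 1 / 600) (hb : b ≤ 51 / 100)
    (ha : 0 < a) (hz0 : 0 < z) (hz : z ≤ 3 / 2) :
    (b - a) * z ^ 2 + (2 * b - a) * z * (1 / 50) + b * (1 / 50) ^ 2 - 1 / 50 < 0 := by
  have h1 : z ^ 2 ≤ (3 / 2) ^ 2 := pow_le_pow_left₀ hz0.le hz 2
  have h7 : (b - a) * z ^ 2 ≤ 1 / 600 * (3 / 2) ^ 2 :=
    mul_le_mul hba h1 (sq_nonneg z) (by norm_num)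
  have h8 : (2 * b - a) * z ≤ (51 / 100 + 1 / 600) * (3 / 2) :=
    mul_le_mul (by linarith) hz hz0.le (by norm_num)
  norm_num at h7 h8 ⊢
  linarith

theorem XEX_dom {u v z : ℝ} (h : Reg u v) (hu : u ≤ 1 / 150) (hv : v ≤ 51 / 100) (hz0 : 0 < z)
    (hz : z ≤ 3 / 2) : DomZ u v z := by
  have hu0 := h.u0
  have hv0 := h.v0
  have ha0 := h.aa_pos
  have ha1 : aa u v ≤ 51 / 100 := (h.aa_lt_bb.trans h.bb_lt).le.trans hv
  have haz : aa u v * z ≤ 51 / 100 * (3 / 2) := mul_le_mul ha1 hz hz0.le (by norm_num)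
  have hba := xex_ba h hu
  refine ⟨hz0, by linarith, ?_⟩
  have h1 : (1 + aa u v * z) ^ 2 - 4 * bb u v * z =
      (1 - aa u v * z) ^ 2 - 4 * ((bb u v - aa u v) * z) := by ring
  have h2 : (bb u v - aa u v) * z ≤ 1 / 600 * (3 / 2) := mul_le_mul hba hz hz0.le (by norm_num)
  have h3 : (47 / 200 : ℝ) ^ 2 ≤ (1 - aa u v * z) ^ 2 :=
    pow_le_pow_left₀ (by norm_num) (by linarith) 2
  norm_num at h2 h3
  linarith

theorem XEX_X {u v z : ℝ} (h : Reg u v) (hu : u ≤ 1 / 150) (hv : v ≤ 51 / 100) (hz0 : 0 < z)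
    (hz : z ≤ 3 / 2) :
    24 / 25 / (1 - v * z) ≤ Xz u v z ∧ Xz u v z ≤ 1 / (1 - v * (z + 1 / 50)) := by
  have hu0 := h.u0
  have hv0 := h.v0
  have ha0 := h.aa_pos
  have hab := h.aa_lt_bb
  have hbv := h.bb_lt
  obtain ⟨hw, hw'⟩ := wz_dom h (XEX_dom h hu hv hz0 hz)
  have hvw := hw.vw h
  have hzw := xex_zw hw.a hw'
  unfold Xz
  set w := wz u v z with hwdef
  have hw0 := hw.w0
  have haw := hw.a
  have hd := hw.d
  have hbw : bb u v * w < 1 := lt_trans (mul_lt_mul_of_pos_right hbv hw0) hvw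
  -- w ≥ z
  have hzw1 : z ≤ w := by
    by_contra hcon
    push Not at hcon
    have h1 : w * (1 - bb u v * w) < z * (1 - bb u v * w) := by
      apply mul_lt_mul_of_pos_right hcon; linarith
    have h2 : z * (1 - bb u v * w) ≤ z * (1 - aa u v * w) := by
      apply mul_le_mul_of_nonneg_left _ hz0.le
      have := mul_le_mul_of_nonneg_right hab.le hw0.le
      linarith
    linarith
  -- w ≤ z + 1 / 50
  have hba := xex_ba h hu
  have hzw2 : w ≤ z + 1 / 50 := by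
    by_contra hcon
    push Not at hcon
    have h1 : 2 * bb u v * w < 1 + aa u v * z := by
      have h2 : (1 + aa u v * z - 2 * bb u v * w) * (1 - aa u v * w) =
          1 - 2 * bb u v * w + aa u v * bb u v * w ^ 2 := by
        linear_combination (- aa u v) * hzw
      have h3 : 0 < (1 + aa u v * z - 2 * bb u v * w) * (1 - aa u v * w) := by rw [h2]; exact hd
      have h4 : 0 < 1 - aa u v * w := by linarith
      have := (mul_pos_iff_of_pos_right h4).1 h3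
      linarith
    -- the quadratic at x = z + 1 / 50
    have h5 : 0 < (z + 1 / 50 - w) * (bb u v * (z + 1 / 50 + w) - (1 + aa u v * z)) := by
      apply mul_pos_of_neg_of_neg
      · linarith
      · have h8 : bb u v * (z + 1 / 50 + w) ≤ bb u v * (w + w) :=
          mul_le_mul_of_nonneg_left (by linarith) (ha0.trans hab).le
        linarith
    have h6 : (z + 1 / 50 - w) * (bb u v * (z + 1 / 50 + w) - (1 + aa u v * z)) =
        (bb u v - aa u v) * z ^ 2 + (2 * bb u v - aa u v) * z * (1 / 50) +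
          bb u v * (1 / 50) ^ 2 - 1 / 50 := by
      linear_combination hzw
    rw [h6] at h5
    have h7 := xex_quad (a := aa u v) (b := bb u v) (z := z) (by linarith) hba (by linarith) ha0
      hz0 hz
    linarith
  have hQ : (0 : ℝ) < 1 - v * (z + 1 / 50) := by
    have : v * (z + 1 / 50) ≤ 51 / 100 * (38 / 25) :=
      mul_le_mul hv (by linarith) (by linarith) (by norm_num)
    linarith
  have hvz : 0 < 1 - v * z := by
    have : v * z ≤ 51 / 100 * (38 / 25) := mul_le_mul hv (by linarith) hz0.le (by norm_num)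
    linarith
  have h1a : 0 < 1 - aa u v * w := by linarith
  have h1b : 0 < 1 - bb u v * w := by linarith
  have hQw : 1 - v * (z + 1 / 50) ≤ 1 - v * w := by
    have := mul_le_mul_of_nonneg_left hzw2 hv0.le
    linarith
  refine ⟨?_, ?_⟩
  · unfold xw
    rw [div_le_div_iff₀ hvz (mul_pos h1a h1b)]
    have hQz : 1 - v * w ≤ 1 - v * z := by
      have := mul_le_mul_of_nonneg_left hzw1 hv0.le
      linarith
    have hQ0 : v * w ≤ 969 / 1250 := by
      have : v * w ≤ 51 / 100 * (38 / 25) := mul_le_mul hv (by linarith) hw0.le (by norm_num)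
      linarith
    have e1 : 1 - aa u v * w = (1 - v * w) + u * (v * w) := by unfold aa; ring
    have e2 : 1 - bb u v * w = (1 - v * w) + u * (v * w) * v := by unfold bb; ring
    obtain ⟨h2, h3⟩ := xex_q hu0 hu (mul_pos hv0 hw0) hQ0 hv0 hv
    exact xex_low hvw hQz (by rw [e1]; linarith) (by rw [e2]; linarith) h1b
  · unfold xw
    rw [div_le_div_iff₀ (mul_pos h1a h1b) hQ]
    have h2 : 1 - v * w ≤ 1 - aa u v * w := by
      have := mul_le_mul_of_nonneg_right (hab.le.trans hbv.le) hw0.le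
      linarith
    have h3 : 1 - v * w ≤ 1 - bb u v * w := by
      have := mul_le_mul_of_nonneg_right hbv.le hw0.le
      linarith
    have h4 : 0 < 1 - v * w := by linarith
    calc (1 - v * w) * (1 - v * (z + 1 / 50)) ≤ (1 - v * w) * (1 - v * w) := by
          apply mul_le_mul_of_nonneg_left hQw h4.le
      _ ≤ (1 - aa u v * w) * (1 - bb u v * w) := mul_le_mul h2 h3 h4.le h1a.le
      _ = 1 * ((1 - aa u v * w) * (1 - bb u v * w)) := (one_mul _).symm

/-- the roots -/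
theorem XEX_roots {K p A z1 z2 : ℝ} (hs : z1 + z2 = A + K + p) (hp : z1 * z2 = A * p) :
    (A + K - z1) * (z2 - (A + K)) = K * p ∧ (p - z1) * (z2 - p) = K * p := by
  constructor
  · linear_combination (A + K) * hs - hp
  · linear_combination p * hs - hp

private theorem xex_half {u v K p z1 z2 : ℝ} (h : Reg u v) (hu : u ≤ 1 / 150)
    (hv' : v ≤ 51 / 100) (hK' : K ≤ 1 / 20) (hp1 : 1 ≤ p) (hp2 : p ≤ 169 / 160)
    (hKp : K * p ≤ 169 / 3200) (r1 : (1 / 2 + K - z1) * (z2 - (1 / 2 + K)) = K * p)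
    (r2 : (p - z1) * (z2 - p) = K * p) (m1 : z1 < 1 / 2 + K) (_m2 : 1 / 2 + K < z2) (_m3 : z1 < p)
    (m4 : p < z2) (q0 : 0 < z1) : LL u v z1 z2 (1 / 2 + K) < 19 / 10 := by
  have hv0 := h.v0
  have b1 : 9 / 20 ≤ z2 - (1 / 2 + K) := by linarith
  have b2 : 1 / 2 + K - z1 ≤ 3 / 25 := by
    by_contra hcon
    push Not at hcon
    have := mul_lt_mul hcon b1 (by norm_num) (by linarith)
    rw [r1] at this
    linarith
  have b3 : 9 / 20 ≤ p - z1 := by linarith
  have b4 : z2 - p ≤ 3 / 25 := by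
    by_contra hcon
    push Not at hcon
    have := mul_lt_mul hcon b3 (by norm_num) (by linarith)
    rw [mul_comm (z2 - p), r2] at this
    linarith
  have b5 : z2 ≤ 59 / 50 := by linarith
  have x1 : Xz u v z1 ≤ 71 / 50 := by
    refine ((XEX_X h hu hv' q0 (by linarith)).2).trans ?_
    have h1 : v * (z1 + 1 / 50) ≤ 51 / 100 * (57 / 100) :=
      mul_le_mul hv' (by linarith) (by linarith) (by norm_num)
    rw [div_le_iff₀ (by linarith)]
    linarith
  have x2 : Xz u v z2 ≤ 13 / 5 := by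
    refine ((XEX_X h hu hv' (by linarith) (by linarith)).2).trans ?_
    have h1 : v * (z2 + 1 / 50) ≤ 51 / 100 * (6 / 5) :=
      mul_le_mul hv' (by linarith) (by linarith) (by norm_num)
    rw [div_le_iff₀ (by linarith)]
    linarith
  unfold LL
  rw [div_lt_iff₀ (by linarith)]
  have y1 := mul_le_mul_of_nonneg_right x1 (by linarith : (0 : ℝ) ≤ z2 - (1 / 2 + K))
  have y2 := mul_le_mul_of_nonneg_right x2 (by linarith : (0 : ℝ) ≤ 1 / 2 + K - z1)
  linarith

private theorem xex_top {u v m z1 z2 : ℝ} (h : Reg u v) (hu : u ≤ 1 / 150) (hv : 49 / 100 ≤ v)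
    (hv' : v ≤ 51 / 100) (hm : 5 / 4 < m) (m1 : z1 < m) (m2 : m < z2) (q0 : 0 < z1)
    (q2 : z2 < 3 / 2) : 17 / 8 < LL u v z1 z2 m := by
  have hP : 0 < 1 - v * m := by
    have := mul_le_mul hv' (by linarith : m ≤ 3 / 2) (by linarith) (by norm_num)
    linarith
  -- the tangent at m
  have tan : ∀ z, 0 < z → z < 3 / 2 →
      24 / 25 * (1 / (1 - v * m) + v * (z - m) / (1 - v * m) ^ 2) ≤ Xz u v z := by
    intro z hz hz'
    have h1 := (XEX_X h hu hv' hz hz'.le).1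
    refine le_trans ?_ h1
    have hQ : 0 < 1 - v * z := by
      have := mul_le_mul hv' hz'.le hz.le (by norm_num)
      linarith
    rw [div_eq_mul_inv (24 / 25 : ℝ) (1 - v * z)]
    apply mul_le_mul_of_nonneg_left _ (by norm_num)
    rw [← sub_nonneg]
    have e : (1 - v * z)⁻¹ - (1 / (1 - v * m) + v * (z - m) / (1 - v * m) ^ 2) =
        (v * (z - m)) ^ 2 / ((1 - v * z) * (1 - v * m) ^ 2) := by
      rw [← one_div, div_add_div _ _ hP.ne' (by positivity), div_sub_div _ _ hQ.ne' (by positivity),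
        div_eq_div_iff (by positivity) (by positivity)]
      ring
    rw [e]
    positivity
  have t1 := tan z1 q0 (by linarith)
  have t2 := tan z2 (by linarith) q2
  unfold LL
  rw [lt_div_iff₀ (by linarith)]
  have hc : 17 / 8 < 24 / 25 * (1 / (1 - v * m)) := by
    rw [mul_one_div, lt_div_iff₀ hP]
    have := mul_le_mul hv hm.le (by norm_num) (by linarith)
    linarith
  have hk1 : 0 < z2 - m := by linarith
  have hk2 : 0 < m - z1 := by linarith
  have s1 := mul_le_mul_of_nonneg_right t1 hk1.le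
  have s2 := mul_le_mul_of_nonneg_right t2 hk2.le
  have e : 24 / 25 * (1 / (1 - v * m) + v * (z1 - m) / (1 - v * m) ^ 2) * (z2 - m) +
      24 / 25 * (1 / (1 - v * m) + v * (z2 - m) / (1 - v * m) ^ 2) * (m - z1) =
      24 / 25 * (1 / (1 - v * m)) * (z2 - z1) := by ring
  have s3 : 17 / 8 * (z2 - z1) < 24 / 25 * (1 / (1 - v * m)) * (z2 - z1) :=
    mul_lt_mul_of_pos_right hc (by linarith)
  linarith

/-- the weight `A` on an explicit box -/
theorem exists_A_uv {u v K D S : ℝ} (h : Reg u v) (hu : u ≤ 1 / 150) (hv : 49 / 100 ≤ v)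
    (hv' : v ≤ 51 / 100) (hK : 0 < K) (hK' : K ≤ 1 / 20) (hD : 0 ≤ D) (hD' : D ≤ 9 / 8)
    (hS : 9 / 10 ≤ S) (hS' : S ≤ 9 / 8) :
    ∃ A z1 z2 : ℝ, 1 / 2 < A ∧ A < 5 / 4 ∧ Eig K D A z1 z2 ∧ 0 < z1 ∧ z2 < 3 / 2 ∧
      DomZ u v z2 ∧ S = LL u v z1 z2 (A + K) - 1 := by
  have hKD0 : 0 ≤ K * D := mul_nonneg hK.le hD
  have hKD1 : K * D ≤ 9 / 160 := by
    have := mul_le_mul hK' hD' hD (by norm_num)
    linarith
  obtain ⟨p, hp⟩ : ∃ p, p = 1 + K * D := ⟨_, rfl⟩
  have hp1 : 1 ≤ p := by rw [hp]; linarith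
  have hp2 : p ≤ 169 / 160 := by rw [hp]; linarith
  have hKp : 0 < K * p := mul_pos hK (by linarith)
  have hKp' : K * p ≤ 169 / 3200 := by
    have := mul_le_mul hK' hp2 (by linarith) (by norm_num)
    linarith
  -- the roots as functions of A
  obtain ⟨R, hR⟩ : ∃ R : ℝ → ℝ, R = fun A => Real.sqrt ((A + K - p) ^ 2 + 4 * (K * p)) := ⟨_, rfl⟩
  have hdisc : ∀ A, 0 < (A + K - p) ^ 2 + 4 * (K * p) := fun A => by positivity
  have hRpos : ∀ A, 0 < R A := fun A => by rw [hR]; exact Real.sqrt_pos.2 (hdisc A)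
  have hRsq : ∀ A, R A * R A = (A + K - p) ^ 2 + 4 * (K * p) := fun A => by
    rw [hR]; exact Real.mul_self_sqrt (hdisc A).le
  obtain ⟨Z1, hZ1⟩ : ∃ Z1 : ℝ → ℝ, Z1 = fun A => (A + K + p - R A) / 2 := ⟨_, rfl⟩
  obtain ⟨Z2, hZ2⟩ : ∃ Z2 : ℝ → ℝ, Z2 = fun A => (A + K + p + R A) / 2 := ⟨_, rfl⟩
  have hlt : ∀ A, Z1 A < Z2 A := fun A => by
    have := hRpos A
    simp only [hZ1, hZ2]; linarith
  have hsum : ∀ A, Z1 A + Z2 A = A + K + p := fun A => by
    simp only [hZ1, hZ2]; ring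
  have hprod : ∀ A, Z1 A * Z2 A = A * p := fun A => by
    simp only [hZ1, hZ2]
    linear_combination (-1 / 4 : ℝ) * hRsq A
  have hroots := fun A => XEX_roots (hsum A) (hprod A)
  have hm1 : ∀ A, Z1 A < A + K ∧ A + K < Z2 A := fun A => by
    have h1 := (hroots A).1
    have h2 := hlt A
    have h3 : 0 < (A + K - Z1 A) * (Z2 A - (A + K)) := by rw [h1]; exact hKp
    rcases pos_and_pos_or_neg_and_neg_of_mul_pos h3 with ⟨h4, h5⟩ | ⟨h4, h5⟩
    · exact ⟨by linarith, by linarith⟩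
    · exfalso; linarith
  have hm2 : ∀ A, Z1 A < p ∧ p < Z2 A := fun A => by
    have h1 := (hroots A).2
    have h2 := hlt A
    have h3 : 0 < (p - Z1 A) * (Z2 A - p) := by rw [h1]; exact hKp
    rcases pos_and_pos_or_neg_and_neg_of_mul_pos h3 with ⟨h4, h5⟩ | ⟨h4, h5⟩
    · exact ⟨by linarith, by linarith⟩
    · exfalso; linarith
  have hZ2lt : ∀ A ∈ Set.Icc (1 / 2 : ℝ) (5 / 4), Z2 A < 3 / 2 := by
    intro A hA
    have h1 : (3 / 2 - Z1 A) * (3 / 2 - Z2 A) = (3 / 2 - A) * (3 / 2 - p) - 3 / 2 * K := by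
      linear_combination (-3 / 2 : ℝ) * hsum A + hprod A
    have h2 : 0 < (3 / 2 - Z1 A) * (3 / 2 - Z2 A) := by
      rw [h1]
      have h3 : (1 / 4 : ℝ) ≤ 3 / 2 - A := by linarith [hA.2]
      have h4 : (71 / 160 : ℝ) ≤ 3 / 2 - p := by linarith
      have := mul_le_mul h3 h4 (by norm_num) (by linarith)
      linarith
    have h3 := hsum A
    rcases pos_and_pos_or_neg_and_neg_of_mul_pos h2 with ⟨h4, h5⟩ | ⟨h4, h5⟩
    · linarith
    · exfalso; linarith [hA.2]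
  have hZ1pos : ∀ A ∈ Set.Icc (1 / 2 : ℝ) (5 / 4), 0 < Z1 A := by
    intro A hA
    have h1 := hprod A
    have h2 : 0 < A * p := mul_pos (by linarith [hA.1]) (by linarith)
    have h3 : 0 < Z2 A := by linarith [(hm2 A).2]
    rw [← h1] at h2
    exact (mul_pos_iff_of_pos_right h3).1 h2
  have hdom1 : ∀ A ∈ Set.Icc (1 / 2 : ℝ) (5 / 4), DomZ u v (Z1 A) := fun A hA =>
    XEX_dom h hu hv' (hZ1pos A hA) (by linarith [hlt A, hZ2lt A hA])
  have hdom2 : ∀ A ∈ Set.Icc (1 / 2 : ℝ) (5 / 4), DomZ u v (Z2 A) := fun A hA =>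
    XEX_dom h hu hv' (by linarith [hlt A, hZ1pos A hA]) (hZ2lt A hA).le
  -- continuity
  have hRc : Continuous R := by rw [hR]; fun_prop
  have hZ1c : Continuous Z1 := by rw [hZ1]; fun_prop
  have hZ2c : Continuous Z2 := by rw [hZ2]; fun_prop
  have hcont : ContinuousOn (fun A => LL u v (Z1 A) (Z2 A) (A + K)) (Set.Icc (1 / 2) (5 / 4)) := by
    intro A hA
    apply ContinuousAt.continuousWithinAt
    unfold LL
    have c1 : ContinuousAt (fun A => Xz u v (Z1 A)) A :=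
      (Xz_analyticAt h (hdom1 A hA)).continuousAt.comp hZ1c.continuousAt
    have c2 : ContinuousAt (fun A => Xz u v (Z2 A)) A :=
      (Xz_analyticAt h (hdom2 A hA)).continuousAt.comp hZ2c.continuousAt
    refine ContinuousAt.div ?_ ?_ ?_
    · exact (c1.mul (hZ2c.continuousAt.sub (by fun_prop))).add
        (c2.mul (ContinuousAt.sub (by fun_prop) hZ1c.continuousAt))
    · exact hZ2c.continuousAt.sub hZ1c.continuousAt
    · have := hlt A
      intro h0
      linarith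
  -- the value at 1 / 2
  have hlow : LL u v (Z1 (1 / 2)) (Z2 (1 / 2)) (1 / 2 + K) < 19 / 10 := by
    have hA : (1 / 2 : ℝ) ∈ Set.Icc (1 / 2 : ℝ) (5 / 4) := ⟨le_rfl, by norm_num⟩
    obtain ⟨r1, r2⟩ := hroots (1 / 2)
    obtain ⟨m1, m2⟩ := hm1 (1 / 2)
    obtain ⟨m3, m4⟩ := hm2 (1 / 2)
    exact xex_half h hu hv' hK' hp1 hp2 hKp' r1 r2 m1 m2 m3 m4 (hZ1pos _ hA)
  -- the value at 5 / 4
  have hhigh : 17 / 8 < LL u v (Z1 (5 / 4)) (Z2 (5 / 4)) (5 / 4 + K) := by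
    have hA : (5 / 4 : ℝ) ∈ Set.Icc (1 / 2 : ℝ) (5 / 4) := ⟨by norm_num, le_rfl⟩
    obtain ⟨m1, m2⟩ := hm1 (5 / 4)
    exact xex_top h hu hv hv' (by linarith) m1 m2 (hZ1pos _ hA) (hZ2lt _ hA)
  have hmem : S + 1 ∈ Set.Icc (LL u v (Z1 (1 / 2)) (Z2 (1 / 2)) (1 / 2 + K))
      (LL u v (Z1 (5 / 4)) (Z2 (5 / 4)) (5 / 4 + K)) := ⟨by linarith, by linarith⟩
  obtain ⟨A, hA, hFA⟩ := intermediate_value_Icc (by norm_num : (1 / 2 : ℝ) ≤ 5 / 4) hcont hmem
  simp only at hFA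
  have hA1 : A ≠ 1 / 2 := by
    rintro rfl
    linarith
  have hA2 : A ≠ 5 / 4 := by
    rintro rfl
    linarith
  refine ⟨A, Z1 A, Z2 A, lt_of_le_of_ne hA.1 hA1.symm, lt_of_le_of_ne hA.2 hA2, ⟨hlt A, ?_, ?_⟩,
    hZ1pos A hA, hZ2lt A hA, hdom2 A hA, ?_⟩
  · rw [hsum, hp]; ring
  · rw [hprod, hp]
  · linarith

/-- the box for `u`, `v` -/
theorem uv_box {u v : ℝ} (h : Reg u v) (hs : sv u v ≤ 1 / 400) (hE : 1 ≤ ev u v)
    (hE' : ev u v ≤ 101 / 100) : u ≤ 1 / 150 ∧ 1 / 2 ≤ v ∧ v ≤ 51 / 100 := by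
  have hu0 := h.u0
  have hv0 := h.v0
  have hu1 := h.u1
  have hv1 := h.v1
  obtain ⟨h1, h2, h3, h4⟩ := uv_near h (by linarith)
  set E := ev u v with hEdef
  have hE1 : 0 < 1 + E := by linarith
  have h5 : E / (1 + E) ≤ 101 / 201 := by
    rw [div_le_iff₀ hE1]; linarith
  have h6 : 1 / 2 ≤ E / (1 + E) := by
    rw [le_div_iff₀ hE1]; linarith
  have hu : u ≤ 3 / 100 := by linarith
  have hv2 : v ≤ 593 / 1000 := by linarith
  -- u = s v (1-u)^2 / (1-v)^2
  have hu1' : 0 < 1 - u := by linarith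
  have hv1' : 0 < 1 - v := by linarith
  have hus : u * (1 - v) ^ 2 = sv u v * (v * (1 - u) ^ 2) := by
    unfold sv
    rw [div_mul_cancel₀]
    positivity
  have hus' : u * (1 - v) ^ 2 ≤ 1 / 400 * v := by
    rw [hus]
    have h7 : (1 - u) ^ 2 ≤ 1 := pow_le_one₀ hu1'.le (by linarith)
    have h9 : v * (1 - u) ^ 2 ≤ v * 1 := mul_le_mul_of_nonneg_left h7 hv0.le
    have h11 : 0 ≤ v * (1 - u) ^ 2 := by positivity
    calc sv u v * (v * (1 - u) ^ 2) ≤ 1 / 400 * (v * (1 - u) ^ 2) :=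
          mul_le_mul_of_nonneg_right hs h11
      _ ≤ _ := by linarith
  have hu2 : u ≤ 9 / 1000 := by
    have h7 : (407 / 1000 : ℝ) ^ 2 ≤ (1 - v) ^ 2 := by
      apply pow_le_pow_left₀ (by norm_num); linarith
    have h8 := mul_le_mul_of_nonneg_left h7 hu0.le
    norm_num at h8
    linarith
  have hv3 : v ≤ 53 / 100 := by linarith
  have hu3 : u ≤ 6 / 1000 := by
    have h7 : (47 / 100 : ℝ) ^ 2 ≤ (1 - v) ^ 2 := by
      apply pow_le_pow_left₀ (by norm_num); linarith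
    have h8 := mul_le_mul_of_nonneg_left h7 hu0.le
    norm_num at h8
    linarith
  refine ⟨by linarith, by linarith, ?_⟩
  -- v (1 + E) = E + u v / (1 - v)
  have hEv : E * (1 - v) ^ 2 = v * (1 - u - v) := by
    rw [hEdef]; unfold ev
    rw [div_mul_cancel₀]
    positivity
  have h7 : (v * (1 + E) - E) * (1 - v) = u * v := by
    linear_combination (-1 : ℝ) * hEv
  have h8 : u * v ≤ 6 / 1000 * (53 / 100) := mul_le_mul hu3 hv3 hv0.le (by norm_num)
  have h9 : v * (1 + E) - E ≤ 7 / 1000 := by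
    by_contra hcon
    push Not at hcon
    have : 7 / 1000 * (47 / 100) < (v * (1 + E) - E) * (1 - v) := by
      apply mul_lt_mul hcon (by linarith) (by norm_num) (by linarith)
    linarith
  by_contra hcon
  push Not at hcon
  have h10 := mul_lt_mul_of_pos_right hcon hE1
  linarith

/-- existence of `A` in terms of the weights -/
theorem exists_A_box {u v K D S : ℝ} (h : Reg u v) (hs : sv u v ≤ 1 / 400) (hE : 1 ≤ ev u v)
    (hE' : ev u v ≤ 101 / 100) (hK : 0 < K) (hK' : K ≤ 1 / 20) (hD : 0 ≤ D) (hD' : D ≤ 9 / 8)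
    (hS : 9 / 10 ≤ S) (hS' : S ≤ 9 / 8) :
    ∃ A z1 z2 : ℝ, 1 / 2 < A ∧ A < 5 / 4 ∧ Eig K D A z1 z2 ∧ 0 < z1 ∧ z2 < 3 / 2 ∧
      DomZ u v z2 ∧ S = LL u v z1 z2 (A + K) - 1 := by
  obtain ⟨h1, h2, h3⟩ := uv_box h hs hE hE'
  exact exists_A_uv h h1 (by linarith) h3 hK hK' hD hD' hS hS'

theorem exists_A : ∃ ε : ℝ, 0 < ε ∧ ∀ u v K D S : ℝ, Reg u v → u < ε → |v - 1 / 2| < ε → 0 < K →
    K < ε → |D - 1| < ε → |S - 1| < ε →
    ∃ A z1 z2 : ℝ, 0 < A ∧ Eig K D A z1 z2 ∧ 0 < z1 ∧ DomZ u v z2 ∧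
      S = LL u v z1 z2 (A + K) - 1 := by
  refine ⟨1 / 150, by norm_num, ?_⟩
  intro u v K D S h hu hv hK hK' hD hS
  rw [abs_lt] at hv hD hS
  obtain ⟨A, z1, z2, h1, h2, h3, h4, h5, h6, h7⟩ := exists_A_uv (u := u) (v := v) (K := K) (D := D)
    (S := S) h hu.le (by linarith) (by linarith) hK (by linarith) (by linarith) (by linarith)
    (by linarith) (by linarith)
  exact ⟨A, z1, z2, by linarith, h3, h4, h6, h7⟩

end PGa
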