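import Pool.Agent.PGm.M08

/-! # The points of the region with given vertex weight and net weight -/

namespace PGa
open PGr

/-- the point of the curve with parameter `v < t` is in the region -/
theorem reg_of_t {t v : ℝ} (h1 : t < 1) (hv0 : 0 < v) (hvt : v < t) :
    Reg (uf (scr t) v) v ∧ sv (uf (scr t) v) v = scr t ∧ yv (uf (scr t) v) v = Yf (scr t) v ∧
      ev (uf (scr t) v) v = Ef (scr t) v := by
  have h0 : 0 < t := hv0.trans hvt
  have hsp := scr_pos h0 h1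
  have hv1 : v < 1 := hvt.trans h1
  have hu0 := uf_pos hsp hv0 hv1
  have hu1 := uf_lt_one hsp hv0 hv1
  have hueq := uf_eq hsp hv0 hv1
  have hqf := qf_pos hv0 hvt h1
  unfold qf at hqf
  refine ⟨⟨hu0, hv0, by nlinarith⟩, ?_, rfl, rfl⟩
  have h3 : 0 < 1 - uf (scr t) v := by linarith
  unfold sv
  rw [hueq]
  field_simp

theorem exists_uv_t {t E : ℝ} (h0 : 0 < t) (h1 : t < 1) (hE : 0 < E) (hE' : E < ecr t) :
    ∃ u v : ℝ, Reg u v ∧ sv u v = scr t ∧ ev u v = E ∧ v < t ∧ uf (scr t) v = u := by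
  obtain ⟨v, hv0, hvt, hvE⟩ := exists_Ef h0 h1 hE hE'
  obtain ⟨a, b, -, d⟩ := reg_of_t h1 hv0 hvt
  exact ⟨uf (scr t) v, v, a, b, d.trans hvE, hvt, rfl⟩

end PGa
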